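import Mathlib

set_option autoImplicit false

/-! Definitions for the theorem on Goldbach's problem for aliquot sums and cototients (helper10). -/

namespace Pool.Agent.H10.AQ

open Finset Filter Topology

/-- A positive multiplicative function with `f m ≤ m (1 + log m)^C` and `f p = p + c` for all large primes `p`. -/
structure Moderate (f : ℕ → ℕ) (c : ℤ) : Prop where
  mul : ∀ m n : ℕ, Nat.Coprime m n → f (m * n) = f m * f n
  pos : ∀ m : ℕ, 1 ≤ m → 1 ≤ f m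
  growth : ∃ C : ℕ, ∀ m : ℕ, 1 ≤ m → (f m : ℝ) ≤ m * (1 + Real.log m) ^ C
  prime : ∃ P : ℕ, ∀ p : ℕ, P ≤ p → p.Prime → (f p : ℤ) = p + c

/-- The twin prime constant `C₂ = ∏_{p > 2} (1 - 1 / (p - 1) ^ 2)`: the infimum (the limit) of the decreasing partial
products over the primes `3 ≤ p ≤ z`. -/
noncomputable def twin : ℝ := ⨅ z : ℕ, ∏ p ∈ (Icc 3 z).filter Nat.Prime, (1 - 1 / ((p : ℝ) - 1) ^ 2)

/-- The singular series `2 C₂ ∏_{p ∣ n, p > 2} (p - 1) / (p - 2)` of the problem of Goldbach. -/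
noncomputable def sing (n : ℕ) : ℝ :=
  2 * twin * ∏ p ∈ n.primeFactors.filter (fun p => 2 < p), ((p : ℝ) - 1) / ((p : ℝ) - 2)

/-- The number of primes `p` with `y₁ < p ≤ y₂` such that `n - p` is a prime. -/
def count (n y₁ y₂ : ℕ) : ℕ := ((Ioc y₁ y₂).filter (fun p => p.Prime ∧ (n - p).Prime)).card

/-- In every window `(y₁, y₂] ⊆ (0, n]` of a length of at least `n / (log n)^W` the number of primes `p` such that `n - p` is
a prime is at least an eighth of `sing n * (y₂ - y₁) / (log n)²`. -/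
def Lower (W n : ℕ) : Prop :=
  ∀ y₁ y₂ : ℕ, y₁ < y₂ → y₂ ≤ n → (n : ℝ) / Real.log n ^ W ≤ (y₂ : ℝ) - y₁ →
    1 / 8 * (sing n * ((y₂ : ℝ) - y₁) / Real.log n ^ 2) ≤ (count n y₁ y₂ : ℝ)

/-- `m` has a prime factor `p ≥ m ^ τ`. -/
def LargePrime (τ : ℝ) (m : ℕ) : Prop := ∃ p : ℕ, p.Prime ∧ p ∣ m ∧ (m : ℝ) ^ τ ≤ p

open Classical in
/-- The proportion of the positive integers `m ≤ N` without the property `P` tends to `0`. -/
def AlmostAll (P : ℕ → Prop) : Prop :=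
  Tendsto (fun N : ℕ => (((Icc 1 N).filter (fun m => ¬ P m)).card : ℝ) / N) atTop (𝓝 0)

/-- The sum of the proper divisors. -/
def aliquot (m : ℕ) : ℕ := ∑ d ∈ m.properDivisors, d

/-- The number `n` is the sum of two different primes, and the system `φ(n / 2 - x) + 1 = n / 2 - x`,
`φ(n / 2 + x) + 1 = n / 2 + x` has an integral solution `x ≠ 0`. -/
def Solved (n : ℕ) : Prop :=
  Even n ∧ (∃ p q : ℕ, p.Prime ∧ q.Prime ∧ p ≠ q ∧ p + q = n) ∧
    ∃ x : ℤ, x ≠ 0 ∧ 1 ≤ ((n / 2 : ℕ) : ℤ) - x ∧ 1 ≤ ((n / 2 : ℕ) : ℤ) + x ∧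
      (Nat.totient (((n / 2 : ℕ) : ℤ) - x).toNat : ℤ) + 1 = ((n / 2 : ℕ) : ℤ) - x ∧
      (Nat.totient (((n / 2 : ℕ) : ℤ) + x).toNat : ℤ) + 1 = ((n / 2 : ℕ) : ℤ) + x

/-- `n` is solved and satisfies the lower bound in the windows. -/
def Good (W n : ℕ) : Prop := Solved n ∧ Lower W n

end Pool.Agent.H10.AQ
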