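import Pool.Agent.H10.AQ.Smooth

set_option autoImplicit false

/-! The numerical recursion: fewer than one of a thousand integers `m` has no prime factor larger than about
`m ^ (1 / 5)` (helper10). -/

namespace Pool.Agent.H10.AQ

open Finset Classical Filter

/-- the bounds, multiplied by `10 ^ 7` -/
def nb (i : ℕ) : ℕ :=
  if i ≤ 5 then 10000000 else
    [8340284, 6910692, 5659910, 4548181, 3547681, 2638177, 1942863, 1411067, 1006644, 703330, 481531, 326299, 218332,
      144046, 93701, 60201, 38308, 24118, 15019, 9256].getD (i - 6) 10000000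

lemma nb_check : ∀ i ∈ Finset.Icc 6 25, 200 * ∑ j ∈ range 5, nb (i - 1 - j) ≤ nb i * (200 * i - 1) := by decide

lemma sb_nb : ∀ i : ℕ, i ≤ 25 → SB (i / 5 - 1 / 1000) (nb i / 10000000) := by
  intro i
  induction i using Nat.strong_induction_on with
  | _ i ih =>
    intro hi
    rcases Nat.lt_or_ge i 6 with h | h
    · have e : nb i = 10000000 := by
        unfold nb
        rw [if_pos (by omega)]
      rw [e]
      exact sb_mono (sb_one _) (by norm_num)
    · have hi6 : (6 : ℝ) ≤ i := by exact_mod_cast h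
      have h1 := sb_step (i / 5 - 1 / 1000) 5 (by norm_num) (by linarith) (fun j => (nb (i - 1 - j) : ℝ) / 10000000)
        (fun j _ => by positivity) (fun j hj => by
          have hj5 := mem_range.1 hj
          have h2 := ih (i - 1 - j) (by omega) (by omega)
          have e : (((i - 1 - j : ℕ) : ℝ) / 5 - 1 / 1000) = (i : ℝ) / 5 - 1 / 1000 - ((j + 1 : ℕ) : ℝ) / (5 : ℕ) := by
            rw [Nat.sub_sub, Nat.cast_sub (by omega)]
            push_cast
            ring
          rw [← e]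
          exact h2)
      refine sb_mono h1 ?_
      have h3 := nb_check i (by rw [Finset.mem_Icc]; omega)
      have h4 : (200 : ℝ) * ∑ j ∈ range 5, (nb (i - 1 - j) : ℝ) ≤ nb i * (200 * i - 1) := by
        have : ((200 * ∑ j ∈ range 5, nb (i - 1 - j) : ℕ) : ℝ) ≤ ((nb i * (200 * i - 1) : ℕ) : ℝ) := by exact_mod_cast h3
        push_cast [Nat.cast_sub (show 1 ≤ 200 * i by omega)] at this
        exact this
      rw [← sum_div, div_div, div_le_div_iff₀ (by push_cast; nlinarith) (by norm_num)]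
      push_cast
      nlinarith

theorem sb_five : SB (4999 / 1000) (926 / 1000000) := by
  have h := sb_nb 25 le_rfl
  have e1 : ((25 : ℕ) : ℝ) / 5 - 1 / 1000 = 4999 / 1000 := by norm_num
  have e2 : nb 25 = 9256 := by decide
  rw [e1, e2] at h
  exact sb_mono h (by norm_num)

/-- the analogue of `few_smooth` for the fifth root -/
theorem few_smooth_five (τ η : ℝ) (hτ : τ < 1000 / 4999) (hη : 0 < η) : ∃ M₀ : ℕ, ∀ M : ℕ, M₀ ≤ M →
    (((Icc 1 M).filter (fun m : ℕ => ∀ p : ℕ, p.Prime → p ∣ m → (p : ℝ) ≤ ((2 * M : ℕ) : ℝ) ^ τ)).card : ℝ) ≤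
      (926 / 1000000 + η) * M := by
  obtain ⟨X₀, hX₀⟩ := sb_five η hη
  have h1 : Tendsto (fun x : ℝ => x ^ (1000 / 4999 - τ)) atTop atTop := tendsto_rpow_atTop (by linarith)
  obtain ⟨x1, hx1⟩ := eventually_atTop.1 (h1.eventually_ge_atTop (2 ^ |τ|))
  obtain ⟨n1, hn1⟩ := exists_nat_ge (max X₀ x1)
  refine ⟨n1 + 1, fun M hM => ?_⟩
  have hMr : max X₀ x1 ≤ (M : ℝ) := hn1.trans (by exact_mod_cast (by omega : n1 ≤ M))
  have hM0 : (0 : ℝ) < M := by exact_mod_cast (by omega : 0 < M)
  have hM1 : (1 : ℝ) ≤ M := by exact_mod_cast (by omega : 1 ≤ M)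
  have h2 := hX₀ M (le_trans (le_max_left _ _) hMr)
  refine le_trans ?_ h2
  rw [Nat.cast_le]
  apply card_le_card
  intro m hm
  rw [mem_filter] at hm
  rw [Sm, mem_filter, Nat.floor_natCast]
  refine ⟨hm.1, fun p hp hpm => (hm.2 p hp hpm).trans ?_⟩
  have h3 := hx1 M (le_trans (le_max_right _ _) hMr)
  calc ((2 * M : ℕ) : ℝ) ^ τ = 2 ^ τ * (M : ℝ) ^ τ := by
        push_cast
        rw [Real.mul_rpow (by norm_num) hM0.le]
    _ ≤ (M : ℝ) ^ (1000 / 4999 - τ) * (M : ℝ) ^ τ := by
        apply mul_le_mul_of_nonneg_right _ (by positivity)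
        refine le_trans ?_ h3
        exact Real.rpow_le_rpow_of_exponent_le (by norm_num) (le_abs_self τ)
    _ = (M : ℝ) ^ (1 / (4999 / 1000) : ℝ) := by
        rw [← Real.rpow_add hM0]
        congr 1
        ring

end Pool.Agent.H10.AQ
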