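import Pool.Agent.H10.AQ.Defs
import Pool.Agent.H10.AQ.Num
import Pool.Graph.R_pool_sql_team_seeded_47a924f7.T6.H3.FF.Conv
import Pool.Graph.R_pool_sql_team_seeded_63374d34.Results.MP_967f73_nt.AliquotSums

set_option autoImplicit false

/-! Goldbach's problem for aliquot sums and cototients: the proof (helper10). -/

namespace Pool.Agent.H10.AQ

open Finset Filter Topology

/-- the theorem on Goldbach representations in the classes of the moduli up to `x ^ (4 / 5)` -/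
theorem ebt_lower4 (Q : ℕ → Prop) (W : ℕ)
    (hQ : ∃ n₀ : ℕ, ∀ n : ℕ, n₀ ≤ n → 2 ∣ n → Pool.Agent.T6.H3.FF.WinM W n → Q n) :
    Pool.Agent.N733.AQ.EBT (4 / 5) (fun n => 2 ∣ n → Q n) :=
  Pool.Agent.N733.AQ.ebt_of _ Q (fun ρ hρ A T => Pool.Agent.T6.H3.FF.class_few4 Q W hQ ρ hρ A T)

lemma sing_eq (n : ℕ) : sing n = Pool.Agent.H560R3.GB.sing n := rfl

theorem solved_of : ∃ n₀ : ℕ, ∀ n : ℕ, n₀ ≤ n → Even n → Lower 1 n → Solved n := by
  have hlog := (Real.tendsto_log_atTop.comp (tendsto_natCast_atTop_atTop (R := ℝ))).eventually_ge_atTop 4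
  rw [eventually_atTop] at hlog
  obtain ⟨n1, hn1⟩ := hlog
  refine ⟨n1 + 4, fun n hn he hw => ?_⟩
  have hL : 4 ≤ Real.log (n : ℝ) := hn1 n (by omega)
  have hn4 : (4 : ℝ) ≤ n := by exact_mod_cast (by omega : 4 ≤ n)
  obtain ⟨t, ht⟩ := he
  obtain ⟨y, hy⟩ : ∃ y, y = t - 1 := ⟨_, rfl⟩
  have ht2 : 2 ≤ t := by omega
  have hyr : (y : ℝ) = n / 2 - 1 := by
    have e1 : 2 * y + 2 = n := by omega
    have e2 : (2 : ℝ) * y + 2 = n := by exact_mod_cast e1
    linarith
  have h1 := hw 0 y (by omega) (by omega) (by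
    rw [pow_one, Nat.cast_zero, sub_zero, div_le_iff₀ (by linarith)]
    rw [hyr]
    nlinarith)
  have hs := Pool.Agent.W93.GB.one_le_sing n
  rw [← sing_eq] at hs
  have hy1 : (1 : ℝ) ≤ y := by exact_mod_cast (by omega : 1 ≤ y)
  have h2 : (0 : ℝ) < count n 0 y := by
    refine lt_of_lt_of_le ?_ h1
    rw [Nat.cast_zero, sub_zero]
    positivity
  have h3 : 0 < count n 0 y := by exact_mod_cast h2
  unfold count at h3
  rw [card_pos] at h3
  obtain ⟨p, hp⟩ := h3
  rw [mem_filter, mem_Ioc] at hp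
  obtain ⟨⟨p1, p2⟩, p3, p4⟩ := hp
  have hnt : n / 2 = t := by omega
  refine ⟨⟨t, ht⟩, ⟨p, n - p, p3, p4, by omega, by omega⟩, (t : ℤ) - p, by omega, ?_, ?_, ?_, ?_⟩
  · rw [hnt]
    have : (1 : ℤ) ≤ p := by exact_mod_cast p3.one_lt.le
    linarith
  · rw [hnt]
    omega
  · rw [hnt]
    have e1 : (t : ℤ) - ((t : ℤ) - p) = p := by ring
    rw [e1, Int.toNat_natCast, Nat.totient_prime p3]
    have := p3.one_lt
    omega
  · rw [hnt]
    have e1 : (t : ℤ) + ((t : ℤ) - p) = ((n - p : ℕ) : ℤ) := by omega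
    rw [e1, Int.toNat_natCast, Nat.totient_prime p4]
    have := p4.one_lt
    omega

theorem winM_one {W n : ℕ} (hn : 3 ≤ n) (h : Lower (W + 1) n) : Lower 1 n := by
  intro y₁ y₂ h1 h2 h3
  refine h y₁ y₂ h1 h2 (le_trans ?_ h3)
  have hn3 : (3 : ℝ) ≤ n := by exact_mod_cast hn
  have hL1 : 1 ≤ Real.log (n : ℝ) := by
    rw [Real.le_log_iff_exp_le (by linarith)]
    have := Real.exp_one_lt_d9
    linarith
  exact div_le_div_of_nonneg_left (Nat.cast_nonneg _) (by positivity) (pow_le_pow_right₀ hL1 (by omega))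

theorem lower (f : ℕ → ℕ) (c α β : ℤ) (C W : ℕ) (ρ : ℝ) (hf : Moderate f c) (hc : c ≠ 0) (hα : α ≠ 0)
    (hβ : β ≠ 0) (hρ : 0 < ρ) :
    AlmostAll (fun m => LargePrime (1 / 5 + ρ) m → (m : ℝ) / Real.log m ^ C ≤ ((α * m + β * f m : ℤ) : ℝ) →
      Even (α * m + β * f m) → Good W (α * m + β * f m).toNat) := by
  obtain ⟨n₀, hn₀⟩ := solved_of
  have h := Pool.Agent.Results.MP_967f73_nt.AliquotSums.general (4 / 5) (by norm_num) (by norm_num)
    (Good W)
    (ebt_lower4 (Good W) (W + 1) ⟨n₀ + 3, fun n hn h2 hw => by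
      have hw1 : Lower (W + 1) n := hw
      refine ⟨hn₀ n (by omega) (even_iff_two_dvd.2 h2) (winM_one (by omega) hw1), ?_⟩
      intro y₁ y₂ h1 h2 h3
      refine hw1 y₁ y₂ h1 h2 (le_trans ?_ h3)
      have hn3 : (3 : ℝ) ≤ n := by exact_mod_cast (by omega : 3 ≤ n)
      have hL1 : 1 ≤ Real.log (n : ℝ) := by
        rw [Real.le_log_iff_exp_le (by linarith)]
        have := Real.exp_one_lt_d9
        linarith
      exact div_le_div_of_nonneg_left (Nat.cast_nonneg _) (by positivity) (pow_le_pow_right₀ hL1 (by omega))⟩)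
    f c α β C ρ ⟨hf.mul, hf.pos, hf.growth, hf.prime⟩ hc hα hβ hρ
  rwa [show (1 - 4 / 5 : ℝ) = 1 / 5 by norm_num] at h

theorem moderate_totient : Moderate Nat.totient (-1) :=
  ⟨Pool.Agent.N733.AQ.tm_totient.mul, Pool.Agent.N733.AQ.tm_totient.pos, Pool.Agent.N733.AQ.tm_totient.growth,
    Pool.Agent.N733.AQ.tm_totient.prime⟩

theorem moderate_sigma : Moderate (fun m => ∑ d ∈ m.divisors, d) 1 :=
  ⟨Pool.Agent.N733.AQ.tm_sigma.mul, Pool.Agent.N733.AQ.tm_sigma.pos, Pool.Agent.N733.AQ.tm_sigma.growth,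
    Pool.Agent.N733.AQ.tm_sigma.prime⟩

open Pool.Agent.Results.MP_967f73_nt.AliquotSums (almostAll_iff almostAll_and squarefree_at log_large card_mono')

theorem both (W : ℕ) (ρ : ℝ) (hρ : 0 < ρ) :
    AlmostAll (fun m => Even m → LargePrime (1 / 5 + ρ) m → Good W (aliquot m) ∧ Good W (m - Nat.totient m)) := by
  obtain ⟨m₁, hm₁⟩ := log_large
  have h1 := lower (fun m => ∑ d ∈ m.divisors, d) 1 (-1) 1 1 W ρ moderate_sigma (by norm_num) (by norm_num)
    (by norm_num) hρ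
  have h2 := lower Nat.totient (-1) 1 (-1) 1 W ρ moderate_totient (by norm_num) (by norm_num) (by norm_num) hρ
  have h3 := squarefree_at (1 / 5 + ρ) (by linarith)
  refine almostAll_and h1 (almostAll_and h2 h3 0 (R := fun m => (LargePrime (1 / 5 + ρ) m →
      (m : ℝ) / Real.log m ^ 1 ≤ ((1 * m + -1 * Nat.totient m : ℤ) : ℝ) →
      Even (1 * (m : ℤ) + -1 * Nat.totient m) → Good W (1 * (m : ℤ) + -1 * Nat.totient m).toNat) ∧
      ∀ p : ℕ, (m : ℝ) ^ (1 / 5 + ρ) ≤ p → ¬ p ^ 2 ∣ m) (fun m _ a b => ⟨a, b⟩)) (m₁ + 8 ^ 10) ?_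
  rintro m hm g1 ⟨g2, g3⟩ he hLP
  obtain ⟨t, ht⟩ := he
  have ht' : m = 2 * t := by omega
  have h8 : (8 : ℕ) ^ 10 ≤ m := by omega
  have hlm : 2 ≤ Real.log (m : ℝ) := hm₁ m (by omega)
  have hm0 : (0 : ℝ) < m := by
    have : 0 < m := by
      have : (0 : ℕ) < 8 ^ 10 := by norm_num
      omega
    exact_mod_cast this
  have hdiv : (m : ℝ) / Real.log m ^ 1 ≤ m / 2 := by
    rw [pow_one]
    exact div_le_div_of_nonneg_left hm0.le (by norm_num) hlm
  have htr : (m : ℝ) = 2 * t := by exact_mod_cast ht'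
  have ht1 : 1 ≤ t := by omega
  -- the totient
  have htot : Nat.totient m ≤ t := by rw [ht']; exact Pool.Agent.N733.AQ.totient_two_mul_le t
  have htote : Even (Nat.totient m) := Nat.totient_even (by omega)
  have hsig : 3 * t ≤ ∑ d ∈ m.divisors, d := by rw [ht']; exact Pool.Agent.N733.AQ.aliquot_ge t ht1
  have hal : aliquot m + m = ∑ d ∈ m.divisors, d := (Nat.sum_divisors_eq_sum_properDivisors_add_self).symm
  obtain ⟨p, hp, hpm, hpτ⟩ := hLP
  have hp2 : p ≠ 2 := by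
    rintro rfl
    have e1 : (8 : ℝ) ≤ (m : ℝ) ^ (1 / 5 + ρ) := by
      have e2 : (1 : ℝ) ≤ m := by exact_mod_cast (by omega : 1 ≤ m)
      calc (8 : ℝ) = ((8 : ℝ) ^ (10 : ℕ)) ^ (1 / 10 : ℝ) := by
            rw [← Real.rpow_natCast, ← Real.rpow_mul (by norm_num)]
            norm_num
        _ ≤ (m : ℝ) ^ (1 / 10 : ℝ) := by
            apply Real.rpow_le_rpow (by positivity) _ (by norm_num)
            exact_mod_cast h8
        _ ≤ (m : ℝ) ^ (1 / 5 + ρ) := Real.rpow_le_rpow_of_exponent_le e2 (by linarith)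
    have e3 : ((2 : ℕ) : ℝ) = 2 := by norm_num
    rw [e3] at hpτ
    linarith
  have hsige : 2 ∣ ∑ d ∈ m.divisors, d := Pool.Agent.N733.AQ.sigma_even hp hp2 hpm (g3 p hpτ)
  constructor
  · -- the aliquot sum
    have e1 : (-1 * (m : ℤ) + 1 * ((∑ d ∈ m.divisors, d : ℕ) : ℤ)) = (aliquot m : ℤ) := by
      rw [← hal]
      push_cast
      ring
    have e3 : Even (aliquot m) := by
      rw [even_iff_two_dvd]
      have h4 : 2 ∣ aliquot m + m := by rw [hal]; exact hsige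
      exact (Nat.dvd_add_left ⟨t, ht'⟩).1 h4
    have := (g1 ⟨p, hp, hpm, hpτ⟩ (by
        rw [e1]
        refine hdiv.trans ?_
        push_cast
        have : t ≤ aliquot m := by omega
        have : (t : ℝ) ≤ aliquot m := by exact_mod_cast this
        linarith) (by
        rw [e1]
        exact_mod_cast e3))
    rw [e1, Int.toNat_natCast] at this
    exact this
  · have e1 : (1 * (m : ℤ) + -1 * (Nat.totient m : ℤ)) = ((m - Nat.totient m : ℕ) : ℤ) := by
      rw [Nat.cast_sub (by omega)]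
      ring
    have e3 : Even (m - Nat.totient m) := by
      rw [Nat.even_sub (by omega)]
      exact ⟨fun _ => htote, fun _ => ⟨t, ht⟩⟩
    have := (g2 ⟨p, hp, hpm, hpτ⟩ (by
        rw [e1]
        refine hdiv.trans ?_
        push_cast
        have h4 : t ≤ m - Nat.totient m := by omega
        have h5 : (t : ℝ) ≤ ((m - Nat.totient m : ℕ) : ℝ) := by exact_mod_cast h4
        rw [htr]
        push_cast [Nat.cast_sub (show Nat.totient m ≤ m by omega)] at h5 ⊢
        linarith) (by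
        rw [e1]
        exact_mod_cast e3))
    rw [e1, Int.toNat_natCast] at this
    exact this

open Classical in
theorem density (W : ℕ) : ∃ N₀ : ℕ, ∀ N : ℕ, N₀ ≤ N →
    999 / 1000 * (N / 2 : ℝ) ≤
      (((Icc 1 N).filter (fun m => Even m ∧ Good W (aliquot m) ∧ Good W (m - Nat.totient m))).card : ℝ) := by
  obtain ⟨N₁, hN₁⟩ := (almostAll_iff _).1 (both W (1 / 50000) (by norm_num)) (1 / 100000) (by norm_num)
  obtain ⟨M₀, hM₀⟩ := few_smooth_five (1 / 5 + 1 / 50000) (1 / 100000) (by norm_num) (by norm_num)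
  refine ⟨N₁ + 2 * M₀ + 100000, fun N hN => ?_⟩
  have hb := hN₁ N (by omega)
  obtain ⟨M, hM⟩ : ∃ M, M = N / 2 := ⟨_, rfl⟩
  have hc := hM₀ M (by omega)
  -- the even integers
  have hsub : (Icc 1 M).image (fun t => 2 * t) ⊆
      ((Icc 1 N).filter (fun m => Even m ∧ Good W (aliquot m) ∧ Good W (m - Nat.totient m)) ∪
        (Icc 1 N).filter (fun m => ¬ (Even m → LargePrime (1 / 5 + 1 / 50000) m → Good W (aliquot m) ∧
          Good W (m - Nat.totient m)))) ∪
        ((Icc 1 M).filter (fun m : ℕ => ∀ p : ℕ, p.Prime → p ∣ m →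
          (p : ℝ) ≤ ((2 * M : ℕ) : ℝ) ^ (1 / 5 + 1 / 50000 : ℝ))).image (fun t => 2 * t) := by
    intro m hm
    rw [mem_image] at hm
    obtain ⟨t, ht, rfl⟩ := hm
    rw [mem_Icc] at ht
    have hmem : 2 * t ∈ Icc 1 N := by rw [mem_Icc]; omega
    rw [mem_union, mem_union, mem_filter, mem_filter, mem_image]
    by_cases h2 : Good W (aliquot (2 * t)) ∧ Good W (2 * t - Nat.totient (2 * t))
    · left; left
      exact ⟨hmem, even_two_mul t, h2⟩
    · by_cases h3 : LargePrime (1 / 5 + 1 / 50000) (2 * t)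
      · left; right
        exact ⟨hmem, fun h => h2 (h (even_two_mul t) h3)⟩
      · right
        refine ⟨t, ?_, rfl⟩
        rw [mem_filter, mem_Icc]
        refine ⟨ht, fun p hp hpt => ?_⟩
        by_contra h4
        push Not at h4
        apply h3
        refine ⟨p, hp, Dvd.dvd.mul_left hpt 2, ?_⟩
        refine le_trans ?_ h4.le
        apply Real.rpow_le_rpow (by positivity) _ (by positivity)
        exact_mod_cast (by omega : 2 * t ≤ 2 * M)
  have hcard : ((Icc 1 M).image (fun t => 2 * t)).card = M := by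
    rw [card_image_of_injective _ (fun a b h => by simpa using h), Nat.card_Icc, Nat.add_sub_cancel]
  have h2 := card_le_card hsub
  rw [hcard] at h2
  have h3 : (M : ℝ) ≤ ((((Icc 1 N).filter (fun m => Even m ∧ Good W (aliquot m) ∧ Good W (m - Nat.totient m))).card : ℝ) +
      (((Icc 1 N).filter (fun m => ¬ (Even m → LargePrime (1 / 5 + 1 / 50000) m → Good W (aliquot m) ∧
          Good W (m - Nat.totient m)))).card : ℝ)) +
      (((Icc 1 M).filter (fun m : ℕ => ∀ p : ℕ, p.Prime → p ∣ m →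
        (p : ℝ) ≤ ((2 * M : ℕ) : ℝ) ^ (1 / 5 + 1 / 50000 : ℝ))).card : ℝ) := by
    have h4 := h2.trans ((card_union_le _ _).trans (add_le_add (card_union_le _ _) card_image_le))
    exact_mod_cast h4
  have hMN : (N : ℝ) / 2 - 1 ≤ M := by
    have : N ≤ 2 * M + 1 := by omega
    have : (N : ℝ) ≤ 2 * M + 1 := by exact_mod_cast this
    linarith
  have hN5 : (100000 : ℝ) ≤ N := by exact_mod_cast (by omega : 100000 ≤ N)
  have hb' : (((Icc 1 N).filter (fun m => ¬ (Even m → LargePrime (1 / 5 + 1 / 50000) m → Good W (aliquot m) ∧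
          Good W (m - Nat.totient m)))).card : ℝ) ≤ 1 / 100000 * N :=
    le_trans (Nat.cast_le.2 (card_mono' (fun m hm => hm))) hb
  have hc' : (((Icc 1 M).filter (fun m : ℕ => ∀ p : ℕ, p.Prime → p ∣ m →
      (p : ℝ) ≤ ((2 * M : ℕ) : ℝ) ^ (1 / 5 + 1 / 50000 : ℝ))).card : ℝ) ≤ (926 / 1000000 + 1 / 100000) * M :=
    le_trans (Nat.cast_le.2 (card_mono' (fun m hm => hm))) hc
  linarith

open Classical in
theorem final :
    (∀ (f : ℕ → ℕ) (c α β : ℤ) (C W : ℕ) (ρ : ℝ), Moderate f c → c ≠ 0 → α ≠ 0 → β ≠ 0 → 0 < ρ →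
      AlmostAll (fun m => LargePrime (1 / 5 + ρ) m → (m : ℝ) / Real.log m ^ C ≤ ((α * m + β * f m : ℤ) : ℝ) →
        Even (α * m + β * f m) → Good W (α * m + β * f m).toNat)) ∧
    ∀ W : ℕ, ∃ N₀ : ℕ, ∀ N : ℕ, N₀ ≤ N → 999 / 1000 * (N / 2 : ℝ) ≤
      (((Icc 1 N).filter (fun m => Even m ∧ Good W (aliquot m) ∧ Good W (m - Nat.totient m))).card : ℝ) :=
  ⟨lower, density⟩

end Pool.Agent.H10.AQ
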