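import Mathlib
import Pool.Graph.R_pool_sql_team_seeded_63374d34.N733.AQ.E

set_option autoImplicit false

/-! Upper bounds for the number of smooth integers by a discrete form of the equation of Dickman (helper10). -/

namespace Pool.Agent.H10.AQ

open Finset Classical Filter
open Pool.Agent.N733.TG (PZ sum_fact)
open Pool.Agent.N733.AQ (sum_log_sq)

/-- the integers up to `x` without prime factors larger than `y` -/
noncomputable def Sm (x y : ℝ) : Finset ℕ := (Icc 1 ⌊x⌋₊).filter (fun m : ℕ => ∀ p : ℕ, p.Prime → p ∣ m → (p : ℝ) ≤ y)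

/-- at most `(s + o(1)) x` of the integers up to `x` have no prime factor larger than `x ^ (1 / u)` -/
def SB (u s : ℝ) : Prop := ∀ η : ℝ, 0 < η → ∃ X₀ : ℝ, ∀ x : ℝ, X₀ ≤ x → ((Sm x (x ^ (1 / u))).card : ℝ) ≤ (s + η) * x

lemma Sm_mono {x y z : ℝ} (h : y ≤ z) : Sm x y ⊆ Sm x z := by
  intro m hm
  rw [Sm, mem_filter] at hm ⊢
  exact ⟨hm.1, fun p hp hpm => (hm.2 p hp hpm).trans h⟩

lemma Sm_card_le {x : ℝ} (hx : 0 ≤ x) (y : ℝ) : ((Sm x y).card : ℝ) ≤ x := by
  have h1 : (Sm x y).card ≤ ⌊x⌋₊ := by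
    refine (card_filter_le _ _).trans ?_
    rw [Nat.card_Icc, Nat.add_sub_cancel]
  calc ((Sm x y).card : ℝ) ≤ (⌊x⌋₊ : ℝ) := by exact_mod_cast h1
    _ ≤ x := Nat.floor_le hx

lemma sb_mono {u s s' : ℝ} (h : SB u s) (hs : s ≤ s') : SB u s' := by
  intro η hη
  obtain ⟨X₀, hX₀⟩ := h η hη
  refine ⟨max X₀ 0, fun x hx => ?_⟩
  have hx0 : 0 ≤ x := le_trans (le_max_right _ _) hx
  refine (hX₀ x (le_trans (le_max_left _ _) hx)).trans ?_
  exact mul_le_mul_of_nonneg_right (by linarith) hx0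

lemma sb_one (u : ℝ) : SB u 1 := by
  intro η hη
  refine ⟨0, fun x hx => ?_⟩
  refine (Sm_card_le hx _).trans ?_
  nlinarith

/-- the number of the `p ∣ m` with `m` smooth -/
lemma Sm_dvd {x y : ℝ} (p : ℕ) (hp : p.Prime) :
    ((Sm x y).filter (fun m => p ∣ m)).card ≤ (Sm (x / p) y).card := by
  have hp0 : 0 < p := hp.pos
  apply card_le_card_of_injOn (fun m => m / p)
  · intro m hm
    rw [mem_coe, mem_filter, Sm, mem_filter, mem_Icc] at hm
    obtain ⟨⟨⟨h1, h2⟩, h3⟩, k, rfl⟩ := hm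
    rw [mem_coe, Sm, mem_filter, mem_Icc]
    simp only
    rw [Nat.mul_div_cancel_left k hp0]
    refine ⟨⟨?_, ?_⟩, fun q hq hqk => h3 q hq (Dvd.dvd.mul_left hqk p)⟩
    · rcases Nat.eq_zero_or_pos k with h | h
      · rw [h, mul_zero] at h1
        omega
      · exact h
    · apply Nat.le_floor
      have hpr : (0 : ℝ) < p := by exact_mod_cast hp0
      rw [le_div_iff₀ hpr]
      have hx0 : 0 ≤ x := by
        by_contra hx
        push Not at hx
        rw [Nat.floor_of_nonpos hx.le] at h2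
        omega
      have : ((p * k : ℕ) : ℝ) ≤ x := (Nat.cast_le.2 h2).trans (Nat.floor_le hx0)
      push_cast at this
      linarith
  · intro m hm n hn h
    rw [mem_coe, mem_filter] at hm hn
    simp only at h
    rw [← Nat.div_mul_cancel hm.2, ← Nat.div_mul_cancel hn.2, h]

/-- the factorizations of the smooth integers -/
lemma sum_fact_Sm {x y : ℝ} (hx : 0 ≤ x) (p : ℕ) (hp : p.Prime) :
    (∑ m ∈ Sm x y, (m.factorization p : ℝ)) ≤ (Sm (x / p) y).card + x / (p * (p - 1) : ℝ) := by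
  have hp0 : 0 < p := hp.pos
  have hp2 : (2 : ℝ) ≤ p := by exact_mod_cast hp.two_le
  have hpr : (0 : ℝ) < p := by linarith
  have hp1 : (0 : ℝ) < p - 1 := by linarith
  obtain ⟨S, hS⟩ : ∃ S, S = (Sm x y).filter (fun m => p ∣ m) := ⟨_, rfl⟩
  have h1 : ∑ m ∈ Sm x y, (m.factorization p : ℝ) = ∑ m ∈ S, (m.factorization p : ℝ) := by
    rw [hS, sum_filter]
    apply sum_congr rfl
    intro m _
    split_ifs with h
    · rfl
    · rw [Nat.factorization_eq_zero_of_not_dvd h, Nat.cast_zero]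
  have h2 : ∑ m ∈ S, (m.factorization p : ℝ) = S.card + ∑ m ∈ S, ((m / p).factorization p : ℝ) := by
    rw [card_eq_sum_ones, Nat.cast_sum, ← sum_add_distrib]
    apply sum_congr rfl
    intro m hm
    rw [hS, mem_filter, Sm, mem_filter, mem_Icc] at hm
    obtain ⟨⟨⟨h1, h2⟩, h3⟩, h4⟩ := hm
    rw [Nat.factorization_div h4]
    have h5 : 1 ≤ m.factorization p := (hp.dvd_iff_one_le_factorization (by omega)).1 h4
    have h6 : p.factorization p = 1 := hp.factorization_self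
    simp only [Finsupp.coe_tsub, Pi.sub_apply, h6]
    push_cast [Nat.cast_sub h5]
    ring
  have h3 : ∑ m ∈ S, ((m / p).factorization p : ℝ) ≤ x / (p * (p - 1) : ℝ) := by
    obtain ⟨N, hN⟩ : ∃ N, N = ⌊x⌋₊ / p := ⟨_, rfl⟩
    have e1 : ∑ m ∈ S, ((m / p).factorization p : ℝ) ≤ ∑ k ∈ Icc 1 N, (k.factorization p : ℝ) := by
      rw [← sum_image (s := S) (g := fun m => m / p) (f := fun k => (k.factorization p : ℝ))]
      · apply sum_le_sum_of_subset_of_nonneg
        · intro k hk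
          rw [mem_image] at hk
          obtain ⟨m, hm, rfl⟩ := hk
          rw [hS, mem_filter, Sm, mem_filter, mem_Icc] at hm
          obtain ⟨⟨⟨g1, g2⟩, g3⟩, g4⟩ := hm
          rw [mem_Icc, hN]
          exact ⟨Nat.div_pos (Nat.le_of_dvd (by omega) g4) hp0, Nat.div_le_div_right g2⟩
        · intro k _ _
          positivity
      · intro m hm n hn h
        rw [hS, mem_coe, mem_filter] at hm hn
        simp only at h
        rw [← Nat.div_mul_cancel hm.2, ← Nat.div_mul_cancel hn.2, h]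
    have e2 := sum_fact N p hp
    have e3 : (∑ k ∈ Icc 1 N, (k.factorization p : ℝ)) * (p - 1) ≤ N := by
      have : (((∑ m ∈ Icc 1 N, m.factorization p) * (p - 1) : ℕ) : ℝ) ≤ N := by exact_mod_cast e2
      rw [Nat.cast_mul, Nat.cast_sub (by omega)] at this
      push_cast at this
      exact this
    have e4 : (N : ℝ) ≤ x / p := by
      rw [hN]
      refine (Nat.cast_div_le (α := ℝ)).trans ?_
      exact div_le_div_of_nonneg_right (Nat.floor_le hx) hpr.le
    refine e1.trans ?_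
    rw [← div_div, le_div_iff₀ hp1]
    exact e3.trans e4
  have h4 : (S.card : ℝ) ≤ (Sm (x / p) y).card := by
    rw [hS]
    exact_mod_cast Sm_dvd p hp
  rw [h1, h2]
  linarith

/-- `∑ log m` over the smooth integers -/
lemma sum_log_Sm {x y : ℝ} (hx : 0 ≤ x) :
    ∑ m ∈ Sm x y, Real.log m ≤ ∑ p ∈ PZ ⌊y⌋₊, Real.log p * ((Sm (x / p) y).card : ℝ) +
      x * ∑ p ∈ PZ ⌊y⌋₊, Real.log p / (p * (p - 1) : ℝ) := by
  have h1 : ∀ m ∈ Sm x y, Real.log m = ∑ p ∈ PZ ⌊y⌋₊, (m.factorization p : ℝ) * Real.log p := by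
    intro m hm
    rw [Sm, mem_filter, mem_Icc] at hm
    have h2 := Pool.Agent.N733.AQ.sp_eq_self (z := ⌊y⌋₊) (m := m) (by omega) (fun p hp hpm => by
      exact Nat.le_floor (hm.2 p hp hpm))
    rw [← Pool.Agent.N733.TG.log_sp, h2]
  rw [sum_congr rfl h1, sum_comm, mul_sum, ← sum_add_distrib]
  apply sum_le_sum
  intro p hp
  rw [PZ, mem_filter, mem_Icc] at hp
  have hl : 0 ≤ Real.log p := Real.log_nonneg (by exact_mod_cast hp.1.1)
  rw [← sum_mul]
  have h2 := mul_le_mul_of_nonneg_right (sum_fact_Sm (x := x) (y := y) hx p hp.2) hl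
  refine h2.trans (le_of_eq ?_)
  ring

/-- the sum of `log p / p` over a range -/
lemma mertens_range : ∃ C : ℝ, 0 ≤ C ∧ ∀ a b : ℝ, 1 ≤ a → a ≤ b →
    ∑ p ∈ (PZ ⌊b⌋₊).filter (fun p : ℕ => a < p), Real.log p / p ≤ Real.log b - Real.log a + C := by
  obtain ⟨C, hC⟩ := Pool.Agent.Erdos456.Mert.mertens_log
  refine ⟨2 * |C| + Real.log 2, by positivity, fun a b ha hab => ?_⟩
  have ha1 : 1 ≤ ⌊a⌋₊ := Nat.le_floor (by exact_mod_cast ha)
  have hb1 : 1 ≤ ⌊b⌋₊ := Nat.le_floor (by exact_mod_cast ha.trans hab)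
  have h1 := (abs_le.1 (hC ⌊b⌋₊ hb1)).2
  have h2 := (abs_le.1 (hC ⌊a⌋₊ ha1)).1
  have h3 : ∑ p ∈ (PZ ⌊b⌋₊).filter (fun p : ℕ => a < p), Real.log p / p + ∑ p ∈ PZ ⌊a⌋₊, Real.log p / p =
      ∑ p ∈ PZ ⌊b⌋₊, Real.log p / (p : ℝ) := by
    rw [← sum_filter_add_sum_filter_not (PZ ⌊b⌋₊) (fun p : ℕ => a < p)]
    congr 1
    apply sum_congr _ (fun _ _ => rfl)
    ext p
    rw [mem_filter, PZ, PZ, mem_filter, mem_filter, mem_Icc, mem_Icc]
    constructor
    · rintro ⟨⟨g1, g2⟩, g3⟩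
      have g4 : (p : ℝ) ≤ a := (Nat.cast_le.2 g2).trans (Nat.floor_le (by linarith))
      exact ⟨⟨⟨g1, Nat.le_floor (g4.trans hab)⟩, g3⟩, not_lt.2 g4⟩
    · rintro ⟨⟨⟨g1, g2⟩, g3⟩, g4⟩
      exact ⟨⟨g1, Nat.le_floor (not_lt.1 g4)⟩, g3⟩
  have h4 : Real.log a - Real.log 2 ≤ Real.log ⌊a⌋₊ := by
    rw [← Real.log_div (by linarith) (by norm_num)]
    apply Real.log_le_log (by linarith)
    have h5 := Nat.lt_floor_add_one a
    have h6 : (1 : ℝ) ≤ ⌊a⌋₊ := by exact_mod_cast ha1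
    linarith
  have h5 : Real.log ⌊b⌋₊ ≤ Real.log b :=
    Real.log_le_log (by exact_mod_cast hb1) (Nat.floor_le (by linarith))
  unfold PZ at h3 ⊢
  have h6 := le_abs_self C
  linarith

lemma sum_biUnion_le' {ι : Type*} (I : Finset ι) (R : ι → Finset ℕ) (g : ℕ → ℝ) (hg : ∀ i ∈ I, ∀ p ∈ R i, 0 ≤ g p) :
    ∑ p ∈ I.biUnion R, g p ≤ ∑ i ∈ I, ∑ p ∈ R i, g p := by
  induction I using Finset.induction_on with
  | empty => simp
  | insert a I ha ih =>
    rw [biUnion_insert, sum_insert ha]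
    have h1 := ih (fun i hi => hg i (mem_insert_of_mem hi))
    have h2 := sum_union_inter (s₁ := R a) (s₂ := I.biUnion R) (f := g)
    have h3 : 0 ≤ ∑ p ∈ R a ∩ I.biUnion R, g p :=
      sum_nonneg (fun p hp => hg a (mem_insert_self _ _) p (mem_inter.1 hp).1)
    linarith

/-- one step of the recursion -/
theorem sb_step (u : ℝ) (J : ℕ) (hJ : 1 ≤ J) (hu : 1 < u) (s : ℕ → ℝ) (hs0 : ∀ j ∈ range J, 0 ≤ s j)
    (hs : ∀ j ∈ range J, SB (u - (j + 1 : ℕ) / J) (s j)) : SB u ((∑ j ∈ range J, s j) / (J * u)) := by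
  obtain ⟨C1, hC10, hC1⟩ := mertens_range
  obtain ⟨C2, hC20, hC2⟩ := sum_log_sq
  obtain ⟨T, hT⟩ : ∃ T, T = ∑ j ∈ range J, s j := ⟨_, rfl⟩
  have hT0 : 0 ≤ T := by rw [hT]; exact sum_nonneg hs0
  have hJ0 : (0 : ℝ) < J := by exact_mod_cast hJ
  have hu0 : 0 < u := by linarith
  intro η hη
  rw [← hT]
  -- the choice of the parameters
  obtain ⟨η', hη'⟩ : ∃ η', η' = η / 4 := ⟨_, rfl⟩
  have hη'0 : 0 < η' := by rw [hη']; linarith
  have hX : ∃ X : ℝ, ∀ j ∈ range J, ∀ x : ℝ, X ≤ x →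
      ((Sm x (x ^ (1 / (u - (j + 1 : ℕ) / J)))).card : ℝ) ≤ (s j + η') * x := by
    have : ∀ j ∈ range J, ∃ X : ℝ, ∀ x : ℝ, X ≤ x →
        ((Sm x (x ^ (1 / (u - (j + 1 : ℕ) / J)))).card : ℝ) ≤ (s j + η') * x := fun j hj => hs j hj η' hη'0
    choose! X hX using this
    refine ⟨∑ j ∈ range J, |X j|, fun j hj x hx => hX j hj x (le_trans ?_ hx)⟩
    exact (le_abs_self _).trans (single_le_sum (f := fun j => |X j|) (fun _ _ => abs_nonneg _) hj)
  obtain ⟨X, hX⟩ := hX
  obtain ⟨K, hK⟩ : ∃ K : ℝ, K = (T + J * η') * C1 + C2 + 1 := ⟨_, rfl⟩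
  have hK0 : 0 ≤ K := by rw [hK]; positivity
  have t1 : ∀ᶠ t : ℝ in atTop, Real.log t ≤ η' * t := by
    have := Real.isLittleO_log_id_atTop.bound hη'0
    filter_upwards [this, eventually_ge_atTop 1] with t ht h1
    rw [Real.norm_eq_abs, Real.norm_eq_abs, id, abs_of_nonneg (Real.log_nonneg h1), abs_of_nonneg (by linarith)] at ht
    exact ht
  have t2 : ∀ᶠ x : ℝ in atTop, Real.log (Real.log x) ≤ η' * Real.log x ∧ K / η' + 2 ≤ Real.log x ∧
      |X| ≤ x ^ (1 - 1 / u) ∧ 1 ≤ x := by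
    have e1 := Real.tendsto_log_atTop.eventually t1
    have e2 := Real.tendsto_log_atTop.eventually_ge_atTop (K / η' + 2)
    have e3 : Tendsto (fun x : ℝ => x ^ (1 - 1 / u)) atTop atTop := tendsto_rpow_atTop (by
      have : 1 / u < 1 := by rw [div_lt_one hu0]; exact hu
      linarith)
    have e4 := e3.eventually_ge_atTop |X|
    filter_upwards [e1, e2, e4, eventually_ge_atTop 1] with x a b c d
    exact ⟨a, b, c, d⟩
  obtain ⟨X₀, hX₀⟩ := eventually_atTop.1 t2
  refine ⟨X₀, fun x hx => ?_⟩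
  obtain ⟨g1, g2, g3, g4⟩ := hX₀ x hx
  have hx0 : 0 < x := by linarith
  obtain ⟨L, hL⟩ : ∃ L, L = Real.log x := ⟨_, rfl⟩
  rw [← hL] at g1 g2
  have hKη : 0 ≤ K / η' := by positivity
  have hL2 : 2 ≤ L := by linarith
  have hL0 : 0 < L := by linarith
  have hKL : K ≤ η' * L := by
    have : K / η' ≤ L := by linarith
    rw [div_le_iff₀ hη'0] at this
    linarith
  obtain ⟨y, hy⟩ : ∃ y, y = x ^ (1 / u) := ⟨_, rfl⟩
  have hy1 : 1 ≤ y := by rw [hy]; exact Real.one_le_rpow g4 (by positivity)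
  have hy0 : 0 < y := by linarith
  have hlogy : Real.log y = L / u := by
    rw [hy, Real.log_rpow hx0, ← hL]
    ring
  rw [← hy]
  -- the ranges of the primes
  obtain ⟨R, hR⟩ : ∃ R : ℕ → Finset ℕ, R = fun j : ℕ => (PZ ⌊y ^ ((j + 1 : ℕ) / J : ℝ)⌋₊).filter
    (fun p : ℕ => y ^ ((j : ℕ) / J : ℝ) < p) := ⟨_, rfl⟩
  have hcover : PZ ⌊y⌋₊ ⊆ (range J).biUnion R := by
    intro p hp
    rw [PZ, mem_filter, mem_Icc] at hp
    obtain ⟨⟨p1, p2⟩, p3⟩ := hp
    have hpy : (p : ℝ) ≤ y := (Nat.cast_le.2 p2).trans (Nat.floor_le hy0.le)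
    have hex : ∃ j : ℕ, (p : ℝ) ≤ y ^ ((j + 1 : ℕ) / J : ℝ) := ⟨J - 1, by
      have : J - 1 + 1 = J := by omega
      rw [this, div_self hJ0.ne', Real.rpow_one]
      exact hpy⟩
    obtain ⟨j, hj⟩ : ∃ j, j = Nat.find hex := ⟨_, rfl⟩
    have hj1 : (p : ℝ) ≤ y ^ ((j + 1 : ℕ) / J : ℝ) := by rw [hj]; exact Nat.find_spec hex
    have hjJ : j ≤ J - 1 := by
      rw [hj]
      apply Nat.find_min'
      have : J - 1 + 1 = J := by omega
      rw [this, div_self hJ0.ne', Real.rpow_one]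
      exact hpy
    have hj2 : y ^ ((j : ℕ) / J : ℝ) < p := by
      rcases Nat.eq_zero_or_pos j with h | h
      · rw [h, Nat.cast_zero, zero_div, Real.rpow_zero]
        exact_mod_cast p3.one_lt
      · by_contra hcon
        push Not at hcon
        have := Nat.find_min hex (m := j - 1) (by omega)
        rw [show j - 1 + 1 = j by omega] at this
        exact this hcon
    rw [mem_biUnion]
    refine ⟨j, by rw [mem_range]; omega, ?_⟩
    rw [hR, mem_filter, PZ, mem_filter, mem_Icc]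
    exact ⟨⟨⟨p1, Nat.le_floor hj1⟩, p3⟩, hj2⟩
  have hRsum : ∀ j ∈ range J, ∑ p ∈ R j, Real.log p / p ≤ L / u / J + C1 := by
    intro j hj
    have h1 := hC1 (y ^ ((j : ℕ) / J : ℝ)) (y ^ ((j + 1 : ℕ) / J : ℝ)) (Real.one_le_rpow hy1 (by positivity))
      (Real.rpow_le_rpow_of_exponent_le hy1 (by
        apply div_le_div_of_nonneg_right _ hJ0.le
        exact_mod_cast Nat.le_succ j))
    rw [Real.log_rpow hy0, Real.log_rpow hy0, hlogy] at h1
    rw [hR]
    refine h1.trans (le_of_eq ?_)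
    push_cast
    field_simp
    ring
  have hRcard : ∀ j ∈ range J, ∀ p ∈ R j, ((Sm (x / p) y).card : ℝ) ≤ (s j + η') * (x / p) := by
    intro j hj p hp
    rw [hR, mem_filter, PZ, mem_filter, mem_Icc] at hp
    obtain ⟨⟨⟨p1, p2⟩, p3⟩, p4⟩ := hp
    have hp0 : (0 : ℝ) < p := by exact_mod_cast p1
    have hpy : (p : ℝ) ≤ y ^ ((j + 1 : ℕ) / J : ℝ) := (Nat.cast_le.2 p2).trans (Nat.floor_le (by positivity))
    have hjJ : ((j + 1 : ℕ) : ℝ) / J ≤ 1 := by
      rw [div_le_one hJ0]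
      exact_mod_cast mem_range.1 hj
    obtain ⟨v, hv⟩ : ∃ v : ℝ, v = u - (j + 1 : ℕ) / J := ⟨_, rfl⟩
    have hv0 : 0 < v := by rw [hv]; linarith
    have hxy : y ^ v ≤ x / p := by
      rw [le_div_iff₀ hp0]
      calc y ^ v * p ≤ y ^ v * y ^ ((j + 1 : ℕ) / J : ℝ) := mul_le_mul_of_nonneg_left hpy (by positivity)
        _ = y ^ u := by rw [← Real.rpow_add hy0, hv]; congr 1; ring
        _ = x := by rw [hy, ← Real.rpow_mul hx0.le, one_div, inv_mul_cancel₀ hu0.ne', Real.rpow_one]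
    have hyx : y ≤ (x / p) ^ (1 / v) := by
      calc y = (y ^ v) ^ (1 / v) := by rw [← Real.rpow_mul hy0.le, mul_one_div, div_self hv0.ne', Real.rpow_one]
        _ ≤ (x / p) ^ (1 / v) := Real.rpow_le_rpow (by positivity) hxy (by positivity)
    have hXp : X ≤ x / p := by
      refine (le_abs_self X).trans (g3.trans ?_)
      rw [le_div_iff₀ hp0]
      have hpy' : (p : ℝ) ≤ y := by
        refine hpy.trans ?_
        calc y ^ ((j + 1 : ℕ) / J : ℝ) ≤ y ^ (1 : ℝ) := Real.rpow_le_rpow_of_exponent_le hy1 hjJ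
          _ = y := Real.rpow_one y
      calc x ^ (1 - 1 / u) * p ≤ x ^ (1 - 1 / u) * x ^ (1 / u) := by
            rw [← hy]
            exact mul_le_mul_of_nonneg_left hpy' (by positivity)
        _ = x := by rw [← Real.rpow_add hx0]; simp
    have h1 := hX j hj (x / p) hXp
    rw [← hv] at h1
    refine le_trans ?_ h1
    exact_mod_cast card_le_card (Sm_mono hyx)
  -- the upper bound
  have hupper : ∑ m ∈ Sm x y, Real.log m ≤ x * ((T + J * η') * (L / u / J + C1) + C2) := by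
    refine (sum_log_Sm hx0.le).trans ?_
    rw [mul_add]
    apply add_le_add
    · have h1 : ∑ p ∈ PZ ⌊y⌋₊, Real.log p * ((Sm (x / p) y).card : ℝ) ≤
          ∑ j ∈ range J, ∑ p ∈ R j, Real.log p * ((Sm (x / p) y).card : ℝ) := by
        refine (sum_le_sum_of_subset_of_nonneg hcover ?_).trans ?_
        · intro p hp _
          rw [mem_biUnion] at hp
          obtain ⟨j, hj, hp⟩ := hp
          rw [hR, mem_filter, PZ, mem_filter, mem_Icc] at hp
          have : 0 ≤ Real.log p := Real.log_nonneg (by exact_mod_cast hp.1.1.1)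
          positivity
        · refine sum_biUnion_le' _ _ _ ?_
          intro j hj p hp
          rw [hR, mem_filter, PZ, mem_filter, mem_Icc] at hp
          have : 0 ≤ Real.log p := Real.log_nonneg (by exact_mod_cast hp.1.1.1)
          positivity
      refine h1.trans ?_
      have h2 : ∀ j ∈ range J, ∑ p ∈ R j, Real.log p * ((Sm (x / p) y).card : ℝ) ≤
          x * ((s j + η') * (L / u / J + C1)) := by
        intro j hj
        have hsj := hs0 j hj
        calc ∑ p ∈ R j, Real.log p * ((Sm (x / p) y).card : ℝ) ≤ ∑ p ∈ R j, (x * (s j + η')) * (Real.log p / p) := by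
              apply sum_le_sum
              intro p hp
              have h3 := hRcard j hj p hp
              rw [hR, mem_filter, PZ, mem_filter, mem_Icc] at hp
              have h4 : 0 ≤ Real.log p := Real.log_nonneg (by exact_mod_cast hp.1.1.1)
              refine (mul_le_mul_of_nonneg_left h3 h4).trans (le_of_eq ?_)
              ring
          _ = (x * (s j + η')) * ∑ p ∈ R j, (Real.log p / p) := by rw [mul_sum]
          _ ≤ (x * (s j + η')) * (L / u / J + C1) := mul_le_mul_of_nonneg_left (hRsum j hj) (by positivity)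
          _ = _ := by ring
      refine (sum_le_sum h2).trans (le_of_eq ?_)
      rw [← mul_sum, ← sum_mul, sum_add_distrib, ← hT, sum_const, card_range, nsmul_eq_mul]
    · exact mul_le_mul_of_nonneg_left (hC2 _) hx0.le
  -- the lower bound
  obtain ⟨S1, hS1⟩ : ∃ S1 : Finset ℕ, S1 = (Sm x y).filter (fun m : ℕ => x / L < m) := ⟨_, rfl⟩
  obtain ⟨S2, hS2⟩ : ∃ S2 : Finset ℕ, S2 = (Sm x y).filter (fun m : ℕ => ¬ x / L < m) := ⟨_, rfl⟩
  have hcard : ((Sm x y).card : ℝ) = S1.card + S2.card := by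
    rw [hS1, hS2]
    exact_mod_cast (card_filter_add_card_filter_not _).symm
  have hc2 : (S2.card : ℝ) ≤ x / L := by
    have : S2 ⊆ Icc 1 ⌊x / L⌋₊ := by
      intro m hm
      rw [hS2, mem_filter, Sm, mem_filter, mem_Icc] at hm
      rw [mem_Icc]
      exact ⟨hm.1.1.1, Nat.le_floor (not_lt.1 hm.2)⟩
    have := card_le_card this
    rw [Nat.card_Icc, Nat.add_sub_cancel] at this
    calc (S2.card : ℝ) ≤ (⌊x / L⌋₊ : ℝ) := by exact_mod_cast this
      _ ≤ x / L := Nat.floor_le (by positivity)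
  have hc1 : (S1.card : ℝ) * (L - Real.log L) ≤ x * ((T + J * η') * (L / u / J + C1) + C2) := by
    refine le_trans ?_ hupper
    rw [← nsmul_eq_mul]
    refine le_trans (card_nsmul_le_sum _ (fun m : ℕ => Real.log m) _ ?_) ?_
    · intro m hm
      rw [hS1, mem_filter] at hm
      have e1 : Real.log (x / L) ≤ Real.log m := Real.log_le_log (by positivity) hm.2.le
      rw [Real.log_div hx0.ne' hL0.ne', ← hL] at e1
      exact e1
    · apply sum_le_sum_of_subset_of_nonneg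
      · rw [hS1]
        exact filter_subset _ _
      · intro m hm _
        rw [Sm, mem_filter, mem_Icc] at hm
        exact Real.log_nonneg (by exact_mod_cast hm.1.1)
  have hc1' : (S1.card : ℝ) ≤ x := by
    refine le_trans ?_ (Sm_card_le hx0.le y)
    rw [hS1]
    exact_mod_cast card_filter_le _ _
  rw [hcard]
  have e0 : 0 ≤ Real.log L := Real.log_nonneg (by linarith)
  have e1 : (S1.card : ℝ) * Real.log L ≤ x * (η' * L) := mul_le_mul hc1' g1 e0 hx0.le
  have e2 : (S2.card : ℝ) * L ≤ x := by rwa [le_div_iff₀ hL0] at hc2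
  have e3 : (T + J * η') * (L / u / J) ≤ T / (J * u) * L + η' * L := by
    have : (T + J * η') * (L / u / J) = T / (J * u) * L + η' * L / u := by
      field_simp
    rw [this]
    have : η' * L / u ≤ η' * L := div_le_self (by positivity) hu.le
    linarith
  have e4 : ((S1.card : ℝ) + S2.card) * L ≤ x * (T / (J * u) * L + η' * L + K + η' * L) := by
    have : (T + J * η') * (L / u / J + C1) + C2 + 1 ≤ T / (J * u) * L + η' * L + K := by
      rw [hK]
      linarith
    have h5 := mul_le_mul_of_nonneg_left this hx0.le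
    linarith
  have e5 : ((S1.card : ℝ) + S2.card) * L ≤ ((T / (J * u) + η) * x) * L := by
    refine e4.trans ?_
    have : T / (J * u) * L + η' * L + K + η' * L ≤ (T / (J * u) + η) * L := by
      rw [hη'] at hKL ⊢
      nlinarith
    calc x * (T / (J * u) * L + η' * L + K + η' * L) ≤ x * ((T / (J * u) + η) * L) :=
          mul_le_mul_of_nonneg_left this hx0.le
      _ = _ := by ring
  exact le_of_mul_le_mul_right e5 hL0

end Pool.Agent.H10.AQ
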